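import Pool.Agent.R239.EA.H

/-!
# Edwards-Anderson ground states on `ℤ^d`: boundary influence on all scales

For iid atomless couplings on the bonds of `ℤ^d`, `d ≥ 2`, almost surely there are, around every
site and on every scale `r`, sites at distance at most `r + 2` where the ground state is influenced
by boundary conditions at distance `r`. The ground state in the box of radius `n` is influenced by
boundary conditions outside the box of radius `r ≥ n` with probability at least of order `n / r`.
-/

set_option autoImplicit false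

open MeasureTheory Filter Topology

namespace Pool.Agent.Results.MP_37ff18_mp.BoundaryInfluence

/-- `σ` is an infinite-volume ground state for the couplings `J`; the bond `(v, i)` joins `v` and
`v + e_i`. Every change at finitely many sites (at least one) increases the energy
`-∑ J_e σ σ` (the sum of the differences over all bonds is a finite sum). -/
def IsGroundState {d : ℕ} (J : (Fin d → ℤ) × Fin d → ℝ) (σ : (Fin d → ℤ) → ℝ) : Prop :=
  (∀ x, σ x = 1 ∨ σ x = -1) ∧
  ∀ ρ : (Fin d → ℤ) → ℝ, (∀ x, ρ x = 1 ∨ ρ x = -1) → {x | ρ x ≠ σ x}.Finite → ρ ≠ σ →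
    0 < ∑ᶠ e : (Fin d → ℤ) × Fin d,
      J e * (σ e.1 * σ (e.1 + (Pi.single e.2 (1 : ℤ) : Fin d → ℤ))
        - ρ e.1 * ρ (e.1 + (Pi.single e.2 (1 : ℤ) : Fin d → ℤ)))

/-- Every change of `σ` at sites of the box of radius `r` around `c` only (at least one site)
increases the energy: in this box `σ` is the ground state for the boundary condition given by its
own values outside the box. -/
def IsGroundStateIn {d : ℕ} (J : (Fin d → ℤ) × Fin d → ℝ) (c : Fin d → ℤ) (r : ℕ)
    (σ : (Fin d → ℤ) → ℝ) : Prop :=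
  (∀ x, σ x = 1 ∨ σ x = -1) ∧
  ∀ ρ : (Fin d → ℤ) → ℝ, (∀ x, ρ x = 1 ∨ ρ x = -1) →
    (∀ x, ρ x ≠ σ x → ∀ i, |x i - c i| ≤ r) → ρ ≠ σ →
    0 < ∑ᶠ e : (Fin d → ℤ) × Fin d,
      J e * (σ e.1 * σ (e.1 + (Pi.single e.2 (1 : ℤ) : Fin d → ℤ))
        - ρ e.1 * ρ (e.1 + (Pi.single e.2 (1 : ℤ) : Fin d → ℤ)))

/-- Boundary conditions outside the box of radius `r` around `c` influence the ground state in the
box of radius `n` around `c`: two of them lead to ground states of the box of radius `r` which
disagree on a bond `(v, i)` with `v` in the box of radius `n`. -/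
def Influence {d : ℕ} (J : (Fin d → ℤ) × Fin d → ℝ) (c : Fin d → ℤ) (n r : ℕ) : Prop :=
  ∃ σ τ : (Fin d → ℤ) → ℝ, IsGroundStateIn J c r σ ∧ IsGroundStateIn J c r τ ∧
    ∃ e : (Fin d → ℤ) × Fin d, (∀ i, |e.1 i - c i| ≤ n) ∧
      σ e.1 * σ (e.1 + (Pi.single e.2 (1 : ℤ) : Fin d → ℤ)) ≠
        τ e.1 * τ (e.1 + (Pi.single e.2 (1 : ℤ) : Fin d → ℤ))

open Pool.Agent.R239.EA

lemma gi_iff {d : ℕ} {J : (Fin d → ℤ) × Fin d → ℝ} {c : Fin d → ℤ} {n : ℕ}
    {σ : (Fin d → ℤ) → ℝ} : IsGroundStateIn J c n σ ↔ GI (bx c n) J σ := by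
  rw [GI_iff]
  unfold IsGroundStateIn
  simp only [mem_bx']
  rfl

lemma ga_iff {d : ℕ} {J : (Fin d → ℤ) × Fin d → ℝ} {σ : (Fin d → ℤ) → ℝ} :
    IsGroundState J σ ↔ GA J σ := by
  rw [GA_iff]
  rfl

lemma influence_iff {d : ℕ} {J : (Fin d → ℤ) × Fin d → ℝ} {c : Fin d → ℤ} {n r : ℕ} :
    Influence J c n r ↔ IB J c n r := by
  constructor
  · rintro ⟨σ, τ, h1, h2, e, he, h3⟩
    rw [gi_iff] at h1 h2
    refine ⟨e, by rw [nrm_le]; exact he, σ, τ, h1, h2, ?_⟩
    rw [edge_iff h1.1 h2.1]
    exact h3
  · rintro ⟨e, he, σ, τ, h1, h2, h3⟩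
    rw [edge_iff h1.1 h2.1] at h3
    rw [nrm_le] at he
    exact ⟨σ, τ, gi_iff.2 h1, gi_iff.2 h2, e, he, h3⟩

/-- Let the couplings on the bonds of `ℤ^d`, `d ≥ 2`, be iid with an atomless law `μ`.

(1) Almost surely, for every site `c` and every `r` there is a site `x` at distance at most `r + 2`
from `c` (maximum norm) such that boundary conditions outside the box of radius `r` around `x`
influence the ground state at `x`.

(2) Let `p n r` be the probability that boundary conditions outside the box of radius `r` influence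
the ground state in the box of radius `n` with the same centre. Then `p n r ≥ 1 / (4 m)` for all
`n ≤ r` and all `m` with `2 r + 3 ≤ m (2 n + 1)`. In particular `p n (3 n) ≥ 1 / 12` for all `n`,
and `p 0 r ≥ 1 / (8 r + 12)` for all `r`.

(3) Almost surely there is exactly one pair of ground states if and only if `p 0 r → 0` for
`r → ∞`. -/
theorem result (d : ℕ) (hd : 2 ≤ d) (μ : Measure ℝ) [IsProbabilityMeasure μ]
    (hμ : ∀ x, μ {x} = 0) (p : ℕ → ℕ → ℝ)
    (hp : ∀ n r, p n r = (Measure.infinitePi fun _ : (Fin d → ℤ) × Fin d => μ).real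
      {J | Influence J 0 n r}) :
    (∀ᵐ J ∂(Measure.infinitePi fun _ : (Fin d → ℤ) × Fin d => μ),
      ∀ (c : Fin d → ℤ) (r : ℕ), ∃ x : Fin d → ℤ, (∀ i, |x i - c i| ≤ r + 2) ∧
        Influence J x 0 r) ∧
    (∀ n r m : ℕ, n ≤ r → 2 * r + 3 ≤ m * (2 * n + 1) → 1 / (4 * (m : ℝ)) ≤ p n r) ∧
    ((∀ᵐ J ∂(Measure.infinitePi fun _ : (Fin d → ℤ) × Fin d => μ),
        ∃ σ, IsGroundState J σ ∧ ∀ τ, IsGroundState J τ → τ = σ ∨ τ = -σ) ↔
      Tendsto (fun r => p 0 r) atTop (𝓝 0)) := by
  have hp' : ∀ n r, p n r = (Lw μ d).real {J | IB J 0 n r} := by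
    intro n r
    rw [hp n r]
    simp only [influence_iff]
    rfl
  refine ⟨?_, ?_, ?_⟩
  · filter_upwards [gn_ae (d := d) μ hμ] with J hJ
    intro c r
    set i : Fin d := ⟨0, by omega⟩ with hi
    set j : Fin d := ⟨1, by omega⟩ with hj
    have hij : i ≠ j := by
      intro h
      have := congrArg Fin.val h
      simp [hi, hj] at this
    obtain ⟨l, hl, h⟩ := square hd hJ c hij (n := 0) (r := r) (m := 2 * r + 3) (Nat.zero_le r)
      (by omega)
    simp only [influence_iff]
    have hl' : (l : ℤ) ≤ 2 * r + 2 := by omega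
    have hl0 : (0 : ℤ) ≤ l := Nat.cast_nonneg l
    have hr0 : (0 : ℤ) ≤ r := Nat.cast_nonneg r
    have key : ∀ (α β : ℤ) (k : Fin d), (k = i ∨ k = j) → |α| ≤ r + 2 → |β| ≤ r + 2 →
        |α + l| ≤ r + 2 ∨ k = j → |β + l| ≤ r + 2 ∨ k = i →
        ∀ a, |(c + α • u i + β • u j + (l : ℤ) • u k) a - c a| ≤ r + 2 := by
      intro α β k hk hα hβ h1 h2 a
      have e1 : (c + α • u i + β • u j + (l : ℤ) • u k) a - c a =
          α * u i a + β * u j a + l * u k a := by
        simp only [Pi.add_apply, Pi.smul_apply, smul_eq_mul]; ring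
      rw [e1]
      by_cases hai : a = i
      · subst hai
        rw [u_same, u_ne hij]
        rcases hk with h | h
        · subst h
          rw [u_same]
          rcases h1 with h | h
          · simpa using h
          · exact absurd h hij
        · subst h
          rw [u_ne hij]
          simpa using hα
      · by_cases haj : a = j
        · subst haj
          rw [u_same, u_ne hij.symm]
          rcases hk with h | h
          · subst h
            rw [u_ne hij.symm]
            simpa using hβ
          · subst h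
            rw [u_same]
            rcases h2 with h | h
            · simpa using h
            · exact absurd h hij.symm
        · rw [u_ne hai, u_ne haj]
          have : u k a = 0 := by
            rcases hk with h | h
            · rw [h]; exact u_ne hai
            · rw [h]; exact u_ne haj
          rw [this]
          simp only [mul_zero, add_zero, abs_zero]
          linarith
    have hce : ∀ (α β : ℤ) (k : Fin d), ce 0 (c + α • u i + β • u j) k l =
        c + α • u i + β • u j + (l : ℤ) • u k := by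
      intro α β k
      unfold ce
      simp
    have ha : c - ((r : ℤ) + 1) • u i - (r : ℤ) • u j =
        c + (-((r : ℤ) + 1)) • u i + (-(r : ℤ)) • u j := by
      rw [neg_smul, neg_smul, ← sub_eq_add_neg, ← sub_eq_add_neg]
    have hd' : c - ((r : ℤ) + 1) • u i + ((r : ℤ) + 1) • u j =
        c + (-((r : ℤ) + 1)) • u i + ((r : ℤ) + 1) • u j := by
      rw [neg_smul, ← sub_eq_add_neg]
    have hb : c + ((r : ℤ) + 2) • u i - (r : ℤ) • u j =
        c + ((r : ℤ) + 2) • u i + (-(r : ℤ)) • u j := by
      rw [neg_smul, ← sub_eq_add_neg]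
    rw [ha, hd', hb, hce, hce, hce, hce] at h
    rcases h with h | h | h | h
    · refine ⟨_, key _ _ _ (Or.inl rfl) ?_ ?_ (Or.inl ?_) (Or.inr rfl), h⟩ <;> rw [abs_le] <;>
        constructor <;> linarith
    · refine ⟨_, key _ _ _ (Or.inr rfl) ?_ ?_ (Or.inr rfl) (Or.inl ?_), h⟩ <;> rw [abs_le] <;>
        constructor <;> linarith
    · refine ⟨_, key _ _ _ (Or.inl rfl) ?_ ?_ (Or.inl ?_) (Or.inr rfl), h⟩ <;> rw [abs_le] <;>
        constructor <;> linarith
    · refine ⟨_, key _ _ _ (Or.inr rfl) ?_ ?_ (Or.inr rfl) (Or.inl ?_), h⟩ <;> rw [abs_le] <;>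
        constructor <;> linarith
  · intro n r m hnr hm
    have h1 := lower3 (d := d) μ hd hμ hnr hm
    rw [← hp' n r] at h1
    have hm0 : 0 < m := by
      rcases Nat.eq_zero_or_pos m with h | h
      · subst h; omega
      · exact h
    have h2 : (0 : ℝ) < 4 * m := by positivity
    rw [div_le_iff₀ h2, mul_comm]
    exact h1
  · have h1 := unique_iff (d := d) μ hd hμ
    simp only [ga_iff]
    have h2 : Tendsto (fun r => p 0 r) atTop (𝓝 0) ↔
        Tendsto (fun n => Lw μ d {J | Inf J 0 n}) atTop (𝓝 0) := by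
      have h3 : (fun r => p 0 r) = fun n => (Lw μ d {J | Inf J 0 n}).toReal := by
        funext r
        rw [hp' 0 r]
        simp only [ib_zero]
        rfl
      rw [h3]
      constructor
      · intro h
        have h4 := ENNReal.tendsto_ofReal h
        rw [ENNReal.ofReal_zero] at h4
        refine h4.congr fun n => ?_
        exact ENNReal.ofReal_toReal (measure_ne_top _ _)
      · intro h
        have h4 := (ENNReal.tendsto_toReal ENNReal.zero_ne_top).comp h
        rw [ENNReal.toReal_zero] at h4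
        exact h4
    rw [h2]
    exact h1

end Pool.Agent.Results.MP_37ff18_mp.BoundaryInfluence
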