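import Pool.Agent.R239.EA.P

/-!
# Edwards-Anderson ground states on `ℤ^d`: infinite paths of influenced bonds

For iid atomless couplings on the bonds of `ℤ^d`, `d ≥ 2`, almost surely from every plaquette starts
an infinite dual path of bonds on which the ground state is influenced by boundary conditions at a
distance which grows like the distance to the starting point; and on every scale `r` every box of
radius `2 r + 1` contains at least `r (2 r + 1) ^ (d - 2)` bonds influenced at distance `r`.
-/

set_option autoImplicit false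

open MeasureTheory Filter Topology

namespace Pool.Agent.Results.MP_37ff18_mp.InfluencePaths

/-- Every change of `σ` at sites of the box of radius `r` around `c` only (at least one site)
increases the energy `-∑ J_e σ σ`, where the bond `e = (v, i)` joins `v` and `v + e_i`: in this box
`σ` is the ground state for the boundary condition given by its own values outside the box. -/
def IsGroundStateIn {d : ℕ} (J : (Fin d → ℤ) × Fin d → ℝ) (c : Fin d → ℤ) (r : ℕ)
    (σ : (Fin d → ℤ) → ℝ) : Prop :=
  (∀ x, σ x = 1 ∨ σ x = -1) ∧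
  ∀ ρ : (Fin d → ℤ) → ℝ, (∀ x, ρ x = 1 ∨ ρ x = -1) →
    (∀ x, ρ x ≠ σ x → ∀ i, |x i - c i| ≤ r) → ρ ≠ σ →
    0 < ∑ᶠ e : (Fin d → ℤ) × Fin d,
      J e * (σ e.1 * σ (e.1 + (Pi.single e.2 (1 : ℤ) : Fin d → ℤ))
        - ρ e.1 * ρ (e.1 + (Pi.single e.2 (1 : ℤ) : Fin d → ℤ)))

/-- Boundary conditions outside the box of radius `r` around the end `e.1` of the bond `e` influence
the ground state on `e`: two of them lead to ground states of this box which disagree on the product
of the two spins of `e`. -/
def BondInfluence {d : ℕ} (J : (Fin d → ℤ) × Fin d → ℝ) (e : (Fin d → ℤ) × Fin d) (r : ℕ) : Prop :=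
  ∃ σ τ : (Fin d → ℤ) → ℝ, IsGroundStateIn J e.1 r σ ∧ IsGroundStateIn J e.1 r τ ∧
    σ e.1 * σ (e.1 + (Pi.single e.2 (1 : ℤ) : Fin d → ℤ)) ≠
      τ e.1 * τ (e.1 + (Pi.single e.2 (1 : ℤ) : Fin d → ℤ))

/-- The bond `e` is one of the four sides of the plaquette with the corners `v`, `v + e_i`,
`v + e_j`, `v + e_i + e_j`. -/
def Side {d : ℕ} (i j : Fin d) (v : Fin d → ℤ) (e : (Fin d → ℤ) × Fin d) : Prop :=
  e = (v, i) ∨ e = (v, j) ∨ e = (v + (Pi.single j (1 : ℤ) : Fin d → ℤ), i) ∨
    e = (v + (Pi.single i (1 : ℤ) : Fin d → ℤ), j)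

open Pool.Agent.R239.EA

lemma gi_iff {d : ℕ} {J : (Fin d → ℤ) × Fin d → ℝ} {c : Fin d → ℤ} {n : ℕ}
    {σ : (Fin d → ℤ) → ℝ} : IsGroundStateIn J c n σ ↔ GI (bx c n) J σ := by
  rw [GI_iff]
  unfold IsGroundStateIn
  simp only [mem_bx']
  rfl

lemma bi_of {d : ℕ} {J : (Fin d → ℤ) × Fin d → ℝ} {e : (Fin d → ℤ) × Fin d} {r : ℕ}
    (h : IE J e.1 r e) : BondInfluence J e r := by
  obtain ⟨σ, τ, h1, h2, h3⟩ := h
  rw [edge_iff h1.1 h2.1] at h3
  exact ⟨σ, τ, gi_iff.2 h1, gi_iff.2 h2, h3⟩

lemma side_of {d : ℕ} (c : Fin d → ℤ) (i j : Fin d) {q : ℤ × ℤ} {e : Ed} (h : Sd q e) :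
    Side i j (pl c i j q) (em c i j e) := by
  rcases sd_sq c i j h with h | h | h | h
  · exact Or.inl h
  · exact Or.inr (Or.inr (Or.inr h))
  · exact Or.inr (Or.inl h)
  · exact Or.inr (Or.inr (Or.inl h))

/-- Let the couplings on the bonds of `ℤ^d`, `d ≥ 2`, be iid with an atomless law `μ`. Almost surely
the following holds for every site `c`.

(1) For every plaquette with corner `c`, in the directions `i ≠ j`, there are pairwise different
plaquettes `c = v 0, v 1, v 2, …` of the same plane and pairwise different bonds `e 0, e 1, e 2, …`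
such that `e k` is a common side of `v k` and `v (k + 1)`, and the ground state on `e k` is
influenced by boundary conditions outside the box of radius `r` around `e k` for every `r` such that
the distance from `c` to `e k` is at least `r + 2` (maximum norm).

(2) For every `r` there are `r (2 r + 1) ^ (d - 2)` bonds `e` at distance at most `2 r + 1` from `c`
such that the ground state on `e` is influenced by boundary conditions outside the box of radius `r`
around `e`. -/
theorem result (d : ℕ) (hd : 2 ≤ d) (μ : Measure ℝ) [IsProbabilityMeasure μ]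
    (hμ : ∀ x, μ {x} = 0) :
    ∀ᵐ J ∂(Measure.infinitePi fun _ : (Fin d → ℤ) × Fin d => μ), ∀ c : Fin d → ℤ,
      (∀ i j : Fin d, i ≠ j → ∃ (v : ℕ → (Fin d → ℤ)) (e : ℕ → (Fin d → ℤ) × Fin d),
        v 0 = c ∧ Function.Injective v ∧ Function.Injective e ∧
        ∀ k, Side i j (v k) (e k) ∧ Side i j (v (k + 1)) (e k) ∧
          ∀ r : ℕ, (∃ a, (r : ℤ) + 2 ≤ |(e k).1 a - c a|) → BondInfluence J (e k) r) ∧
      ∀ r : ℕ, ∃ T : Finset ((Fin d → ℤ) × Fin d), T.card = r * (2 * r + 1) ^ (d - 2) ∧
        ∀ e ∈ T, (∀ a, |e.1 a - c a| ≤ 2 * r + 1) ∧ BondInfluence J e r := by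
  filter_upwards [gn_ae (d := d) μ hμ] with J hJ
  intro c
  refine ⟨fun i j hij => ?_, fun r => ?_⟩
  · obtain ⟨p, e, hp, hpi, he, h⟩ := path hd hJ c hij
    refine ⟨fun k => pl c i j (p k), fun k => em c i j (e k), ?_, ?_, ?_, fun k => ?_⟩
    · simp only [hp, pl, zero_smul, add_zero]
    · intro k l hkl
      have h5' : pl c i j (p k) = pl c i j (p l) := hkl
      have h6 := congrFun h5' i
      have h7 := congrFun h5' j
      rw [pl_i c hij, pl_i c hij] at h6
      rw [pl_j c hij, pl_j c hij] at h7
      exact hpi (Prod.ext (by linarith) (by linarith))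
    · intro k l hkl
      apply he
      have h1 : pl c i j (e k).2 = pl c i j (e l).2 := congrArg Prod.fst hkl
      have h2 : (if (e k).1 then j else i) = if (e l).1 then j else i := congrArg Prod.snd hkl
      have h3 := congrFun h1 i
      have h4 := congrFun h1 j
      rw [pl_i c hij, pl_i c hij] at h3
      rw [pl_j c hij, pl_j c hij] at h4
      refine Prod.ext ?_ (Prod.ext (by linarith) (by linarith))
      cases h5 : (e k).1 <;> cases h6 : (e l).1 <;> rw [h5, h6] at h2
      · exact absurd h2 hij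
      · exact absurd h2 hij.symm
    · obtain ⟨h1, h2, h4⟩ := h k
      refine ⟨side_of c i j h1, side_of c i j h2, fun r hr => bi_of (h4 r ?_)⟩
      obtain ⟨a, ha⟩ := hr
      by_contra hc
      have h5 : nrm ((em c i j (e k)).1 - c) ≤ r + 1 := by omega
      rw [nrm_le] at h5
      have h6 := h5 a
      rw [Pi.sub_apply] at h6
      push_cast at h6
      linarith
  · obtain ⟨T, hT, h⟩ := many hd hJ c r
    refine ⟨T, hT, fun e he => ⟨?_, bi_of (h e he).2⟩⟩
    have h1 := (h e he).1
    rw [nrm_le] at h1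
    intro a
    have h2 := h1 a
    rw [Pi.sub_apply] at h2
    push_cast at h2
    exact h2

end Pool.Agent.Results.MP_37ff18_mp.InfluencePaths
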