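import Pool.Agent.R239.EA.V

/-!
# Edwards-Anderson ground states on `ℤ^d`: influence of boundary conditions across the scales

For iid atomless couplings on the bonds of `ℤ^d`, `d ≥ 2`: how often, at a fixed site, the ground
state in the box of radius `n` is influenced by boundary conditions outside the box of radius
`L n`, given the couplings in the box, along any sequence of scales, and with growing `L`.
-/

set_option autoImplicit false

open MeasureTheory Filter Topology

namespace Pool.Agent.Results.MP_37ff18_mp.InfluenceScales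

/-- Every change of `σ` at sites of the box of radius `r` around `c` only (at least one site)
increases the energy `-∑ J_e σ σ`, where the bond `e = (v, i)` joins `v` and `v + e_i`: in this box
`σ` is the ground state for the boundary condition given by its own values outside the box. -/
def IsGroundStateIn {d : ℕ} (J : (Fin d → ℤ) × Fin d → ℝ) (c : Fin d → ℤ) (r : ℕ)
    (σ : (Fin d → ℤ) → ℝ) : Prop :=
  (∀ x, σ x = 1 ∨ σ x = -1) ∧
  ∀ ρ : (Fin d → ℤ) → ℝ, (∀ x, ρ x = 1 ∨ ρ x = -1) →
    (∀ x, ρ x ≠ σ x → ∀ i, |x i - c i| ≤ r) → ρ ≠ σ →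
    0 < ∑ᶠ e : (Fin d → ℤ) × Fin d,
      J e * (σ e.1 * σ (e.1 + (Pi.single e.2 (1 : ℤ) : Fin d → ℤ))
        - ρ e.1 * ρ (e.1 + (Pi.single e.2 (1 : ℤ) : Fin d → ℤ)))

/-- Boundary conditions outside the box of radius `r` around `c` influence the ground state in the
box of radius `n` around `c`: two of them lead to ground states of the box of radius `r` which
disagree on a bond `(v, i)` with `v` in the box of radius `n`. -/
def Influence {d : ℕ} (J : (Fin d → ℤ) × Fin d → ℝ) (c : Fin d → ℤ) (n r : ℕ) : Prop :=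
  ∃ σ τ : (Fin d → ℤ) → ℝ, IsGroundStateIn J c r σ ∧ IsGroundStateIn J c r τ ∧
    ∃ e : (Fin d → ℤ) × Fin d, (∀ i, |e.1 i - c i| ≤ n) ∧
      σ e.1 * σ (e.1 + (Pi.single e.2 (1 : ℤ) : Fin d → ℤ)) ≠
        τ e.1 * τ (e.1 + (Pi.single e.2 (1 : ℤ) : Fin d → ℤ))

open Classical in
/-- The number of `k < N` such that boundary conditions outside the box of radius `L * n k` around
`c` influence the ground state in the box of radius `n k`. -/
noncomputable def numScales {d : ℕ} (J : (Fin d → ℤ) × Fin d → ℝ) (c : Fin d → ℤ) (n : ℕ → ℕ)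
    (L N : ℕ) : ℕ :=
  ((Finset.range N).filter fun k => Influence J c (n k) (L * n k)).card

/-- The event `F` depends only on the couplings of the bonds with an end in the box
`|x_i| < n`. -/
def DependsOnBox {d : ℕ} (F : Set ((Fin d → ℤ) × Fin d → ℝ)) (n : ℕ) : Prop :=
  ∀ J J' : (Fin d → ℤ) × Fin d → ℝ,
    (∀ e : (Fin d → ℤ) × Fin d, ((∀ i, |e.1 i| < n) ∨
      (∀ i, |(e.1 + (Pi.single e.2 (1 : ℤ) : Fin d → ℤ)) i| < n)) → J e = J' e) →
    J ∈ F → J' ∈ F

open Pool.Agent.R239.EA

lemma gi_iff {d : ℕ} {J : (Fin d → ℤ) × Fin d → ℝ} {c : Fin d → ℤ} {n : ℕ}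
    {σ : (Fin d → ℤ) → ℝ} : IsGroundStateIn J c n σ ↔ GI (bx c n) J σ := by
  rw [GI_iff]
  unfold IsGroundStateIn
  simp only [mem_bx']
  rfl

lemma influence_iff {d : ℕ} {J : (Fin d → ℤ) × Fin d → ℝ} {c : Fin d → ℤ} {n r : ℕ} :
    Influence J c n r ↔ IB J c n r := by
  constructor
  · rintro ⟨σ, τ, h1, h2, e, he, h3⟩
    rw [gi_iff] at h1 h2
    refine ⟨e, by rw [nrm_le]; exact he, σ, τ, h1, h2, ?_⟩
    rw [edge_iff h1.1 h2.1]
    exact h3
  · rintro ⟨e, he, σ, τ, h1, h2, h3⟩
    rw [edge_iff h1.1 h2.1] at h3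
    rw [nrm_le] at he
    exact ⟨σ, τ, gi_iff.2 h1, gi_iff.2 h2, e, he, h3⟩

lemma numScales_eq {d : ℕ} (J : (Fin d → ℤ) × Fin d → ℝ) (c : Fin d → ℤ) (n : ℕ → ℕ)
    (L N : ℕ) : numScales J c n L N = nsc n (fun k => L * n k) c J N := by
  classical
  unfold numScales nsc
  congr 1
  ext k
  simp only [Finset.mem_filter, influence_iff]

lemma dep_of {d n : ℕ} {F : Set ((Fin d → ℤ) × Fin d → ℝ)} (hn : 1 ≤ n)
    (h : DependsOnBox F n) : Dep F (tb 0 (n - 1)) := by
  intro J J' hJ hF
  refine h J J' (fun e he => hJ e ?_) hF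
  rw [mem_tb, mem_bx', mem_bx']
  have e1 : (((n - 1 : ℕ) : ℤ)) = n - 1 := by omega
  rw [e1]
  rcases he with h1 | h1
  · left
    intro i
    have := h1 i
    rw [Pi.zero_apply, sub_zero]
    omega
  · right
    intro i
    have := h1 i
    rw [Pi.zero_apply, sub_zero]
    unfold nx u
    omega

/-- Let the couplings on the bonds of `ℤ^d`, `d ≥ 2`, be iid with an atomless law `μ`.

(1) For `n, L ≥ 1` and every measurable event `F` which depends only on the couplings of the bonds
with an end in the box `|x_i| < n`, the probability that `F` occurs and boundary conditions outside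
the box of radius `L n` influence the ground state in the box of radius `n` is at least
`P(F) ^ (8 L) / (8 L)`, and at least `1 / (100 (L + 1))` if `P(F) ≥ 1 - 10 ^ (-5)`.

(2) Let `n k → ∞` be any sequence of scales and `L ≥ 1`. Almost surely, for every site `c`, the set
of the `k` such that boundary conditions outside the box of radius `L * n k` around `c` influence
the ground state in the box of radius `n k` has upper density at least `1 / (8 L + 4)`.

(3) Let `L * n k < n (k + 1)` for all `k`. The probability that fewer than `ε N` of the first `N`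
scales are influenced in this way is at most `(8 L (ε + 1 / N)) ^ (1 / (8 L))`.

(4) Let `3 * L k * n k < n (k + 1)` for all `k`, and let `∑ 1 / L k` diverge. Almost surely, for
every site `c` there are infinitely many `k` such that boundary conditions outside the box of radius
`L k * n k` around `c` influence the ground state in the box of radius `n k`. For example one can
take `L k = k + 1` and `n k = 4 ^ k (k + 1)!`: the influence reaches from distance `n log n` divided
by a multiple of `log log n` into the box of radius `n` for infinitely many `n`. -/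
theorem result (d : ℕ) (hd : 2 ≤ d) (μ : Measure ℝ) [IsProbabilityMeasure μ]
    (hμ : ∀ x, μ {x} = 0) (P : Measure ((Fin d → ℤ) × Fin d → ℝ))
    (hP : P = Measure.infinitePi fun _ : (Fin d → ℤ) × Fin d => μ) :
    (∀ n L : ℕ, 1 ≤ n → 1 ≤ L → ∀ F : Set ((Fin d → ℤ) × Fin d → ℝ), MeasurableSet F →
      DependsOnBox F n →
        P.real F ^ (8 * L) / (8 * L) ≤ P.real ({J | Influence J 0 n (L * n)} ∩ F) ∧
        (1 - 1 / 100000 ≤ P.real F →
          1 / (100 * ((L : ℝ) + 1)) ≤ P.real ({J | Influence J 0 n (L * n)} ∩ F))) ∧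
    (∀ n : ℕ → ℕ, Tendsto n atTop atTop → ∀ L : ℕ, 1 ≤ L → ∀ᵐ J ∂P, ∀ (c : Fin d → ℤ) (δ : ℝ),
      δ < 1 / (8 * L + 4) → ∃ᶠ N in atTop, δ * N ≤ numScales J c n L N) ∧
    (∀ n : ℕ → ℕ, (∀ k, 1 ≤ n k) → ∀ L : ℕ, 1 ≤ L → (∀ k, L * n k < n (k + 1)) → ∀ N : ℕ,
      1 ≤ N → ∀ ε : ℝ, 0 ≤ ε → P.real {J | (numScales J 0 n L N : ℝ) < ε * N} ^ (8 * L) ≤
        8 * L * (ε + 1 / N)) ∧
    ∀ n L : ℕ → ℕ, (∀ k, 1 ≤ n k) → (∀ k, 1 ≤ L k) → (∀ k, 3 * (L k * n k) < n (k + 1)) →
      (¬ Summable fun k => 1 / (L k : ℝ)) →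
      ∀ᵐ J ∂P, ∀ c : Fin d → ℤ, ∃ᶠ k in atTop, Influence J c (n k) (L k * n k) := by
  subst hP
  refine ⟨fun n L hn hL F hF hdep => ⟨?_, fun hF1 => ?_⟩, fun n hn L hL => ?_,
    fun n hn L hL hsep N hN ε hε => ?_, fun n L hn hL hsep hdiv => ?_⟩
  · have h1 := cond_lower (d := d) μ hd hμ hn (Nat.le_mul_of_pos_left n hL) hF (dep_of hn hdep)
      (div_le hn hL)
    have h2 : (0 : ℝ) < 8 * L := by
      have : (1 : ℝ) ≤ L := by exact_mod_cast hL
      linarith
    rw [div_le_iff₀ h2]
    simp only [influence_iff]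
    exact h1.trans_eq (mul_comm _ _)
  · have h2 : (Lw μ d).real Fᶜ ≤ 1 / 100000 := by
      have h3 : (Lw μ d).real Fᶜ = 1 - (Lw μ d).real F := probReal_compl_eq_one_sub hF
      have h4 : 1 - 1 / 100000 ≤ (Lw μ d).real F := hF1
      rw [h3]
      linarith
    have h1 := cond_lower2 (d := d) μ hd hμ (s := L + 1) hn (Nat.le_mul_of_pos_left n hL)
      (by nlinarith [Nat.mul_le_mul hL hn]) hF (dep_of hn hdep) h2
    simp only [influence_iff]
    push_cast at h1
    exact h1
  · filter_upwards [scales (d := d) μ hd hμ hn hL] with J hJ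
    intro c δ hδ
    have h1 := hJ c δ hδ
    simp only [numScales_eq]
    exact h1
  · have hN0 : (0 : ℝ) < N := by exact_mod_cast hN
    have h1 := count (d := d) μ hd hμ (a := n) (b := fun k => L * n k)
      (fun k => Nat.le_mul_of_pos_left _ hL) hsep hn (S := L) (fun k => div_le (hn k) hL) N
      (T := ε * N) (by positivity)
    simp only [numScales_eq]
    have h2 : (8 * (L : ℝ)) * (ε * N + 1) = (8 * L * (ε + 1 / N)) * N := by
      field_simp
    rw [h2, mul_comm] at h1
    exact le_of_mul_le_mul_right h1 hN0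
  · filter_upwards [growth2 (d := d) μ hd hμ hn hL hsep hdiv] with J hJ
    intro c
    refine (hJ c).mono fun k hk => influence_iff.2 hk

end Pool.Agent.Results.MP_37ff18_mp.InfluenceScales
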