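import Pool.Agent.R239.EA.U

/-!
# Edwards-Anderson ground states on `ℤ^d`: no local rule determines them

For iid symmetric atomless couplings on the bonds of `ℤ^d`, `d ≥ 2`, and an arbitrary fixed boundary
condition of a large box, no rule can read off the ground state of the large box in a box of radius
`n` from the couplings at distance at most `r` with an error probability of smaller order than
`n / r`.
-/

set_option autoImplicit false

open MeasureTheory Filter Topology

namespace Pool.Agent.Results.MP_37ff18_mp.LocalRules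

/-- `σ` is the ground state of the box of radius `M` around the origin for the couplings `J` and the
boundary condition `η`: it is a configuration of spins `±1` which is equal to `η` outside the box,
and every change at sites of the box (at least one) increases the energy `-∑ J_e σ σ`, where the
bond `e = (v, i)` joins `v` and `v + e_i`. -/
def IsBoxGroundState {d : ℕ} (J : (Fin d → ℤ) × Fin d → ℝ) (M : ℕ) (η σ : (Fin d → ℤ) → ℝ) :
    Prop :=
  (∀ x, σ x = 1 ∨ σ x = -1) ∧
  (∀ x : Fin d → ℤ, ¬ (∀ i, |x i| ≤ (M : ℤ)) → σ x = η x) ∧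
  ∀ ρ : (Fin d → ℤ) → ℝ, (∀ x, ρ x = 1 ∨ ρ x = -1) →
    (∀ x, ρ x ≠ σ x → ∀ i, |x i| ≤ M) → ρ ≠ σ →
    0 < ∑ᶠ e : (Fin d → ℤ) × Fin d,
      J e * (σ e.1 * σ (e.1 + (Pi.single e.2 (1 : ℤ) : Fin d → ℤ))
        - ρ e.1 * ρ (e.1 + (Pi.single e.2 (1 : ℤ) : Fin d → ℤ)))

/-- The rule `F` assigns to a site `w` and couplings `J` a number `F w J e` for every bond `e`. It
has range `r` if `F w J` depends only on the couplings of the bonds with an end in the box of radius
`r` around `w`. -/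
def HasRange {d : ℕ}
    (F : (Fin d → ℤ) → ((Fin d → ℤ) × Fin d → ℝ) → (Fin d → ℤ) × Fin d → ℝ) (r : ℕ) : Prop :=
  ∀ (w : Fin d → ℤ) (J J' : (Fin d → ℤ) × Fin d → ℝ),
    (∀ e : (Fin d → ℤ) × Fin d, ((∀ i, |e.1 i - w i| ≤ r) ∨
      (∀ i, |(e.1 + (Pi.single e.2 (1 : ℤ) : Fin d → ℤ)) i - w i| ≤ r)) → J e = J' e) →
    ∀ e, F w J e = F w J' e

/-- The rule fails at `w`: on some bond `(v, i)` with `v` in the box of radius `n` around `w` the
number given by the rule is not the product of the two spins of the ground state. -/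
def Fails {d : ℕ} (J : (Fin d → ℤ) × Fin d → ℝ) (M : ℕ) (η : (Fin d → ℤ) → ℝ)
    (F : (Fin d → ℤ) → ((Fin d → ℤ) × Fin d → ℝ) → (Fin d → ℤ) × Fin d → ℝ) (n : ℕ)
    (w : Fin d → ℤ) : Prop :=
  ∃ σ : (Fin d → ℤ) → ℝ, IsBoxGroundState J M η σ ∧ ∃ e : (Fin d → ℤ) × Fin d,
    (∀ i, |e.1 i - w i| ≤ n) ∧
      F w J e ≠ σ e.1 * σ (e.1 + (Pi.single e.2 (1 : ℤ) : Fin d → ℤ))

/-- The box of radius `R` around `c`: the sites `w` with `|w i - c i| ≤ R` for all `i`. -/
noncomputable def box {d : ℕ} (c : Fin d → ℤ) (R : ℕ) : Finset (Fin d → ℤ) :=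
  Fintype.piFinset fun i => Finset.Icc (c i - R) (c i + R)

open Pool.Agent.R239.EA

lemma bg_iff {d : ℕ} {J : (Fin d → ℤ) × Fin d → ℝ} {M : ℕ} {η σ : (Fin d → ℤ) → ℝ} :
    IsBoxGroundState J M η σ ↔ BG M η J σ := by
  unfold IsBoxGroundState BG
  rw [GI_iff]
  have h : ∀ x : Fin d → ℤ, x ∈ bx 0 M ↔ ∀ i, |x i| ≤ (M : ℤ) := by
    intro x
    rw [mem_bx, sub_zero, nrm_le]
  simp only [h]
  constructor
  · rintro ⟨h1, h2, h3⟩; exact ⟨⟨h1, h3⟩, h2⟩
  · rintro ⟨⟨h1, h3⟩, h2⟩; exact ⟨h1, h2, h3⟩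

lemma fails_iff {d : ℕ} {J : (Fin d → ℤ) × Fin d → ℝ} {M : ℕ} {η : (Fin d → ℤ) → ℝ}
    {F : (Fin d → ℤ) → ((Fin d → ℤ) × Fin d → ℝ) → (Fin d → ℤ) × Fin d → ℝ} {n : ℕ}
    {w : Fin d → ℤ} : Fails J M η F n w ↔ Er M η F n w J := by
  unfold Fails Er
  refine exists_congr fun σ => ?_
  rw [bg_iff]
  refine and_congr_right fun _ => exists_congr fun e => ?_
  rw [nrm_le]
  rfl

lemma loc_of_range {d : ℕ}
    {F : (Fin d → ℤ) → ((Fin d → ℤ) × Fin d → ℝ) → (Fin d → ℤ) × Fin d → ℝ} {r : ℕ}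
    (h : HasRange F r) : Loc F r := by
  intro w J J' hJ
  refine h w J J' fun e he => hJ e ?_
  rw [mem_tb, mem_bx', mem_bx']
  exact he

lemma nrm_of {d M k : ℕ} (hd : 2 ≤ d) {c : Fin d → ℤ} (hc : ∀ i, |c i| + k ≤ (M : ℤ)) :
    nrm c + k ≤ M := by
  have h0 : k ≤ M := by
    have h1 := hc ⟨0, by omega⟩
    have h2 := abs_nonneg (c ⟨0, by omega⟩)
    have h3 : (k : ℤ) ≤ M := by linarith
    exact_mod_cast h3
  have h1 : nrm c ≤ M - k := by
    rw [nrm_le]
    intro a
    rw [Nat.cast_sub h0]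
    have := hc a
    linarith
  omega

lemma exists_site {d : ℕ} (hd : 2 ≤ d) (μ : Measure ℝ) [IsProbabilityMeasure μ]
    (hμ : ∀ x, μ {x} = 0) (hsym : μ.map (fun x => -x) = μ)
    (η : (Fin d → ℤ) → ℝ) (hη : ∀ x, η x = 1 ∨ η x = -1) (M n r m : ℕ) (hnr : n ≤ r)
    (hm : 2 * r + 3 ≤ m * (2 * n + 1))
    (F : (Fin d → ℤ) → ((Fin d → ℤ) × Fin d → ℝ) → (Fin d → ℤ) × Fin d → ℝ) (hF : HasRange F r)
    (c : Fin d → ℤ) (hc : ∀ i, |c i| + m * (2 * n + 1) + r + 1 ≤ M) :
    ∃ w : Fin d → ℤ, (∀ i, |w i - c i| ≤ m * (2 * n + 1)) ∧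
      1 / (8 * (m : ℝ)) ≤ (Measure.infinitePi fun _ : (Fin d → ℤ) × Fin d => μ).real
        {J | Fails J M η F n w} := by
  classical
  set i : Fin d := ⟨0, by omega⟩ with hi
  set j : Fin d := ⟨1, by omega⟩ with hj
  have hij : i ≠ j := by
    intro h
    have := congrArg Fin.val h
    simp [hi, hj] at this
  have hm0 : 0 < m := by
    rcases Nat.eq_zero_or_pos m with h | h
    · subst h; omega
    · exact h
  have hcM : nrm c + m * (2 * n + 1) + r + 1 ≤ M := by
    have h0 : m * (2 * n + 1) + r + 1 ≤ M := by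
      have h1 := hc i
      have h2 := abs_nonneg (c i)
      have h3 : ((m * (2 * n + 1) + r + 1 : ℕ) : ℤ) ≤ M := by push_cast; linarith
      exact_mod_cast h3
    have h1 : nrm c ≤ M - (m * (2 * n + 1) + r + 1) := by
      rw [nrm_le]
      intro a
      rw [Nat.cast_sub h0]
      have := hc a
      push_cast
      linarith
    omega
  by_contra hcon
  push Not at hcon
  set W : Finset (Fin d → ℤ) := (Finset.range m).biUnion fun l =>
    {ce n (pa c i j r) i l, ce n (pa c i j r) j l, ce n (pd c i j r) i l, ce n (pb c i j r) j l}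
    with hW
  have hnear : ∀ w ∈ W, ∀ a, |w a - c a| ≤ m * (2 * n + 1) := by
    intro w hw a
    rw [hW, Finset.mem_biUnion] at hw
    obtain ⟨l, hl, hw⟩ := hw
    rw [Finset.mem_range] at hl
    have hl' : (l : ℤ) * (2 * n + 1) + (2 * n + 1) ≤ m * (2 * n + 1) := by
      have : (l + 1) * (2 * n + 1) ≤ m * (2 * n + 1) := Nat.mul_le_mul_right _ hl
      have h2 : l * (2 * n + 1) + (2 * n + 1) ≤ m * (2 * n + 1) := by
        rw [add_mul, one_mul] at this; exact this
      exact_mod_cast h2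
    have hl0 : (0 : ℤ) ≤ (l : ℤ) * (2 * n + 1) := by positivity
    have hm' : 2 * (r : ℤ) + 3 ≤ m * (2 * n + 1) := by exact_mod_cast hm
    have hn0 : (0 : ℤ) ≤ n := Nat.cast_nonneg n
    have hr0 : (0 : ℤ) ≤ r := Nat.cast_nonneg r
    have hui : u i a = 0 ∧ u j a = 0 ∨ u i a = 1 ∧ u j a = 0 ∨ u i a = 0 ∧ u j a = 1 := by
      by_cases h1 : a = i
      · right; left
        rw [h1]
        exact ⟨u_same i, u_ne hij⟩
      · by_cases h2 : a = j
        · right; right
          rw [h2]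
          exact ⟨u_ne hij.symm, u_same j⟩
        · left
          exact ⟨u_ne h1, u_ne h2⟩
    simp only [Finset.mem_insert, Finset.mem_singleton] at hw
    rcases hw with h | h | h | h
    · have e1 : w a - c a =
          -((r : ℤ) + 1) * u i a - r * u j a + (l * (2 * n + 1) + n) * u i a := by
        rw [h]
        simp only [ce, pa, Pi.add_apply, Pi.sub_apply, Pi.smul_apply, smul_eq_mul]
        ring
      rw [e1, abs_le]
      rcases hui with ⟨h1, h2⟩ | ⟨h1, h2⟩ | ⟨h1, h2⟩ <;> rw [h1, h2] <;> constructor <;> linarith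
    · have e1 : w a - c a =
          -((r : ℤ) + 1) * u i a - r * u j a + (l * (2 * n + 1) + n) * u j a := by
        rw [h]
        simp only [ce, pa, Pi.add_apply, Pi.sub_apply, Pi.smul_apply, smul_eq_mul]
        ring
      rw [e1, abs_le]
      rcases hui with ⟨h1, h2⟩ | ⟨h1, h2⟩ | ⟨h1, h2⟩ <;> rw [h1, h2] <;> constructor <;> linarith
    · have e1 : w a - c a =
          -((r : ℤ) + 1) * u i a + (r + 1) * u j a + (l * (2 * n + 1) + n) * u i a := by
        rw [h]
        simp only [ce, pd, Pi.add_apply, Pi.sub_apply, Pi.smul_apply, smul_eq_mul]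
        ring
      rw [e1, abs_le]
      rcases hui with ⟨h1, h2⟩ | ⟨h1, h2⟩ | ⟨h1, h2⟩ <;> rw [h1, h2] <;> constructor <;> linarith
    · have e1 : w a - c a =
          ((r : ℤ) + 2) * u i a - r * u j a + (l * (2 * n + 1) + n) * u j a := by
        rw [h]
        simp only [ce, pb, Pi.add_apply, Pi.sub_apply, Pi.smul_apply, smul_eq_mul]
        ring
      rw [e1, abs_le]
      rcases hui with ⟨h1, h2⟩ | ⟨h1, h2⟩ | ⟨h1, h2⟩ <;> rw [h1, h2] <;> constructor <;> linarith
  have hbd : ∀ w ∈ W, Lw μ d {J | Er M η F n w J} < ENNReal.ofReal (1 / (8 * (m : ℝ))) := by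
    intro w hw
    have h1 := hcon w (hnear w hw)
    simp only [fails_iff] at h1
    rw [ENNReal.lt_ofReal_iff_toReal_lt (measure_ne_top _ _)]
    exact h1
  have hm1 : (0 : ℝ) < 8 * m := by positivity
  set q : ENNReal := W.sup fun w => Lw μ d {J | Er M η F n w J} with hq
  have hq1 : q < ENNReal.ofReal (1 / (8 * (m : ℝ))) := by
    rw [hq, Finset.sup_lt_iff]
    · exact hbd
    · rw [bot_eq_zero, ENNReal.ofReal_pos]
      positivity
  have hmain := local_rule (d := d) μ hd hμ hsym hη (c := c) hij hnr hm hcM (loc_of_range hF) q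
    (by
      intro l hl w hw
      refine Finset.le_sup (f := fun w => Lw μ d {J | Er M η F n w J}) ?_
      rw [hW, Finset.mem_biUnion]
      refine ⟨l, Finset.mem_range.2 hl, ?_⟩
      simpa only [Finset.mem_insert, Finset.mem_singleton, Set.mem_insert_iff,
        Set.mem_singleton_iff] using hw)
  have h8 : ((8 * m : ℕ) : ENNReal) * q < 1 := by
    calc ((8 * m : ℕ) : ENNReal) * q < ((8 * m : ℕ) : ENNReal) * ENNReal.ofReal (1 / (8 * (m : ℝ))) := by
          refine ENNReal.mul_lt_mul_right ?_ (ENNReal.natCast_ne_top _) hq1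
          simp only [ne_eq, Nat.cast_eq_zero]
          omega
      _ = 1 := by
          rw [show (((8 * m : ℕ) : ENNReal)) = ENNReal.ofReal (8 * (m : ℝ)) by
            rw [← ENNReal.ofReal_natCast]; push_cast; rfl, ← ENNReal.ofReal_mul hm1.le,
            mul_one_div_cancel hm1.ne', ENNReal.ofReal_one]
  exact absurd hmain (not_le.2 h8)

lemma average {d : ℕ} (hd : 2 ≤ d) (μ : Measure ℝ) [IsProbabilityMeasure μ]
    (hμ : ∀ x, μ {x} = 0) (hsym : μ.map (fun x => -x) = μ)
    (η : (Fin d → ℤ) → ℝ) (hη : ∀ x, η x = 1 ∨ η x = -1) (M n r m : ℕ) (hnr : n ≤ r)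
    (hm : 2 * r + 3 ≤ m * (2 * n + 1))
    (F : (Fin d → ℤ) → ((Fin d → ℤ) × Fin d → ℝ) → (Fin d → ℤ) × Fin d → ℝ) (hF : HasRange F r)
    (c : Fin d → ℤ) (R : ℕ) (hc : ∀ i, |c i| + R + m * (2 * n + 1) + r + 1 ≤ M) :
    (2 * (R : ℝ) + 1) ^ d / (8 * (m : ℝ)) ≤ ∑ w ∈ box c (R + m * (2 * n + 1)),
      (Measure.infinitePi fun _ : (Fin d → ℤ) × Fin d => μ).real {J | Fails J M η F n w} := by
  have hm0 : 0 < m := by
    rcases Nat.eq_zero_or_pos m with h | h
    · subst h; omega
    · exact h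
  have hij : (⟨0, by omega⟩ : Fin d) ≠ ⟨1, by omega⟩ := by
    intro h
    have := congrArg Fin.val h
    simp at this
  have hcM : nrm c + R + m * (2 * n + 1) + r + 1 ≤ M := by
    have := nrm_of (d := d) (M := M) (k := R + m * (2 * n + 1) + r + 1) hd (c := c) (by
      intro i
      have := hc i
      push_cast
      linarith)
    omega
  have h := local_avg (d := d) μ hd hμ hsym hη (c := c) hij hnr hm hcM (loc_of_range hF)
  have h1 := ENNReal.toReal_mono (by
    refine ENNReal.mul_ne_top (ENNReal.natCast_ne_top _) ?_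
    exact (ENNReal.sum_lt_top.2 fun w _ => measure_lt_top _ _).ne) h
  rw [ENNReal.toReal_mul, ENNReal.toReal_natCast, ENNReal.toReal_natCast,
    ENNReal.toReal_sum (fun w _ => measure_ne_top _ _)] at h1
  have hm1 : (0 : ℝ) < 8 * m := by positivity
  rw [div_le_iff₀ hm1]
  push_cast at h1
  simp only [fails_iff]
  exact h1.trans_eq (mul_comm _ _)

/-- Let the couplings on the bonds of `ℤ^d`, `d ≥ 2`, be iid with a symmetric atomless law `μ`, let
`η` be any boundary condition (not depending on the couplings) and let `F` be any rule of range `r`.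
Let `n ≤ r` and `2 r + 3 ≤ m (2 n + 1)`.

(1) For every site `c` in the box of radius `M - m (2 n + 1) - r - 1` there is a site `w` at
distance at most `m (2 n + 1)` from `c` such that the rule fails to determine the ground state of
the box of radius `M` on the bonds of the box of radius `n` around `w` with probability at least
`1 / (8 m)`.

(2) The expected number of sites `w` in the box of radius `R + m (2 n + 1)` around `c` at which the
rule fails is at least `(2 R + 1) ^ d / (8 m)`, if this box is in the box of radius `M - r - 1`: on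
average over large boxes, the failure probability is at least `1 / (8 m)` up to the factor
`((2 R + 1) / (2 R + 1 + 2 m (2 n + 1))) ^ d`.

For `r = 3 n` one can take `m = 3`: the failure probability is at least `1 / 24` on all scales. For
`n = 0` one can take `m = 2 r + 3`. -/
theorem result (d : ℕ) (hd : 2 ≤ d) (μ : Measure ℝ) [IsProbabilityMeasure μ]
    (hμ : ∀ x, μ {x} = 0) (hsym : μ.map (fun x => -x) = μ)
    (η : (Fin d → ℤ) → ℝ) (hη : ∀ x, η x = 1 ∨ η x = -1) (M n r m : ℕ) (hnr : n ≤ r)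
    (hm : 2 * r + 3 ≤ m * (2 * n + 1))
    (F : (Fin d → ℤ) → ((Fin d → ℤ) × Fin d → ℝ) → (Fin d → ℤ) × Fin d → ℝ)
    (hF : HasRange F r) :
    (∀ c : Fin d → ℤ, (∀ i, |c i| + m * (2 * n + 1) + r + 1 ≤ M) →
      ∃ w : Fin d → ℤ, (∀ i, |w i - c i| ≤ m * (2 * n + 1)) ∧
        1 / (8 * (m : ℝ)) ≤ (Measure.infinitePi fun _ : (Fin d → ℤ) × Fin d => μ).real
          {J | Fails J M η F n w}) ∧
    ∀ (c : Fin d → ℤ) (R : ℕ), (∀ i, |c i| + R + m * (2 * n + 1) + r + 1 ≤ M) →
      (2 * (R : ℝ) + 1) ^ d / (8 * (m : ℝ)) ≤ ∑ w ∈ box c (R + m * (2 * n + 1)),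
        (Measure.infinitePi fun _ : (Fin d → ℤ) × Fin d => μ).real {J | Fails J M η F n w} :=
  ⟨fun c hc => exists_site hd μ hμ hsym η hη M n r m hnr hm F hF c hc,
    fun c R hc => average hd μ hμ hsym η hη M n r m hnr hm F hF c R hc⟩

end Pool.Agent.Results.MP_37ff18_mp.LocalRules
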